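import Pool.Agent.TH750.Scott

/-!
# Finitely generated commutative rings have d-Sigma_2 Scott sentences

Definitions (formulas of `L_{ω₁ω}`, `Σ_n`, `Π_n`, Scott sentences) are in
`Pool/Agent/TH750/Scott.lean`; the signature of rings `(0, 1, +, -, ·)` is Mathlib's
`FirstOrder.Language.ring`.

Proof. Let the ring `A` be generated by the tuple `a`, let the finitely many polynomials `p_j`
generate the ideal of all relations of `a`, and let `x = q(a)` be a tuple of `A` which satisfies all
universal formulas true of `a`. The tuple `a` shows that `∃ w, x = q(w) ∧ p_j(w) = 0` is true, so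
`∃ w, a = q(w) ∧ p_j(w) = 0` is true. For such a `w` there is an endomorphism `σ` of `A` with
`σ(a) = w`, and `σ(x) = q(w) = a`. So `σ` is surjective, hence injective since `A` is Noetherian,
and `x` generates `A` since `σ(x) = a` does.
-/

set_option autoImplicit false

namespace Pool.Agent.Results.MP_93e0ce_lc.CommRings

open FirstOrder FirstOrder.Language FirstOrder.Ring Pool.Agent.TH750.SC

/-- surjective endomorphisms of Noetherian rings are injective -/
theorem injective_of_surjective {A : Type} [CommRing A] [IsNoetherianRing A] (σ : A →+* A)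
    (h : Function.Surjective σ) : Function.Injective σ := by
  let f : ℕ →o Ideal A :=
    { toFun := fun n => RingHom.ker (σ ^ n)
      monotone' := by
        refine monotone_nat_of_le_succ fun n x hx => ?_
        rw [RingHom.mem_ker] at hx ⊢
        rw [pow_succ', RingHom.mul_def, RingHom.comp_apply, hx, map_zero] }
  obtain ⟨n, hn⟩ := monotone_stabilizes_iff_noetherian.2 (inferInstance : IsNoetherian A A) f
  have hsurj : ∀ n, Function.Surjective (σ ^ n : A →+* A) := by
    intro n
    induction n with
    | zero => exact fun x => ⟨x, rfl⟩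
    | succ n ih =>
      intro x
      obtain ⟨y, hy⟩ := h x
      obtain ⟨z, hz⟩ := ih y
      refine ⟨z, ?_⟩
      rw [pow_succ', RingHom.mul_def, RingHom.comp_apply, hz, hy]
  rw [injective_iff_map_eq_zero]
  intro x hx
  obtain ⟨y, hy⟩ := hsurj n x
  have h1 : y ∈ f (n + 1) := by
    change y ∈ RingHom.ker (σ ^ (n + 1))
    rw [RingHom.mem_ker, pow_succ', RingHom.mul_def, RingHom.comp_apply, hy, hx]
  rw [← hn (n + 1) (Nat.le_succ n)] at h1
  have h2 : (σ ^ n) y = 0 := h1
  rw [← hy, h2]

/-- a finite conjunction of quantifier-free formulas -/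
theorem exists_conj {L : FirstOrder.Language.{0, 0}} {m : ℕ} (l : List (L.Formula (Fin m)))
    (hl : ∀ φ ∈ l, BoundedFormula.IsQF φ) :
    ∃ ψ : L.Formula (Fin m), BoundedFormula.IsQF ψ ∧
      ∀ (A : Type) [L.Structure A] (v : Fin m → A), ψ.Realize v ↔ ∀ φ ∈ l, φ.Realize v := by
  induction l with
  | nil => exact ⟨⊤, BoundedFormula.IsQF.top, fun A _ v => by simp⟩
  | cons φ l ih =>
    obtain ⟨ψ, h1, h2⟩ := ih fun χ hχ => hl χ (List.mem_cons_of_mem _ hχ)
    refine ⟨φ ⊓ ψ, (hl φ List.mem_cons_self).inf h1, fun A _ v => ?_⟩
    rw [Formula.realize_inf, h2, List.forall_mem_cons]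

/-- Every finitely generated commutative ring (in particular every finitely generated integral
domain) has a d-`Σ_2` Scott sentence. -/
theorem result (A : Type) [CommRing A] [CompatibleRing A]
    (hA : ∃ s : Finset A, Subring.closure (s : Set A) = ⊤) :
    HasDSigma2Scott Language.ring A := by
  classical
  obtain ⟨s, hs⟩ := hA
  -- a generating tuple
  let n := s.card
  let a : Fin n → A := fun i => (s.equivFin.symm i : A)
  have hmem : ∀ y ∈ s, ∃ i, a i = y := by
    intro y hy
    exact ⟨s.equivFin ⟨y, hy⟩, by simp [a]⟩
  -- polynomials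
  let ev : (Fin n → A) → FreeCommRing (Fin n) →+* A := fun w => FreeCommRing.lift w
  have hev : ∀ (w : Fin n → A) (p : FreeCommRing (Fin n)),
      (termOfFreeCommRing p).realize w = ev w p := fun w p => realize_termOfFreeCommRing p w
  have hgen : ∀ w : Fin n → A, (∀ i, ∃ p, ev w p = a i) → Function.Surjective (ev w) := by
    intro w hw
    have h1 : Subring.closure (s : Set A) ≤ (ev w).range := by
      rw [Subring.closure_le]
      intro y hy
      obtain ⟨i, rfl⟩ := hmem y hy
      obtain ⟨p, hp⟩ := hw i
      exact ⟨p, hp⟩
    intro y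
    have h2 : y ∈ Subring.closure (s : Set A) := by rw [hs]; trivial
    exact h1 h2
  have hof : ∀ (w : Fin n → A) (i : Fin n), ev w (FreeCommRing.of i) = w i :=
    fun w i => FreeCommRing.lift_of w i
  have hsurj : Function.Surjective (ev a) := hgen a fun i => ⟨FreeCommRing.of i, hof a i⟩
  have hN : IsNoetherianRing (FreeCommRing (Fin n)) :=
    isNoetherianRing_of_ringEquiv _ (freeCommRingEquivMvPolynomialInt (Fin n)).symm
  have hNA : IsNoetherianRing A := isNoetherianRing_of_surjective _ _ (ev a) hsurj
  obtain ⟨S, hS⟩ := (isNoetherianRing_iff_ideal_fg _).1 hN (RingHom.ker (ev a))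
  refine hasDSigma2Scott_of_generates a ?_ ?_
  · intro y
    obtain ⟨p, hp⟩ := hsurj y
    exact ⟨termOfFreeCommRing p, by rw [hev, hp]⟩
  · intro x hx
    have hq : ∀ i, ∃ q, ev a q = x i := fun i => hsurj (x i)
    choose q hq using hq
    -- the formula
    let l1 : List (Language.ring.Formula (Fin (n + n))) :=
      (List.finRange n).map fun i => Term.equal (Term.var (Fin.castAdd n i))
        ((termOfFreeCommRing (q i)).relabel (Fin.natAdd n))
    let l2 : List (Language.ring.Formula (Fin (n + n))) :=
      S.toList.map fun p => Term.equal ((termOfFreeCommRing p).relabel (Fin.natAdd n)) 0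
    obtain ⟨ψ, hψ, hψ2⟩ := exists_conj (l1 ++ l2) (by
      intro φ hφ
      rcases List.mem_append.1 hφ with h | h
      · obtain ⟨i, -, rfl⟩ := List.mem_map.1 h
        exact (BoundedFormula.IsAtomic.equal _ _).isQF
      · obtain ⟨i, -, rfl⟩ := List.mem_map.1 h
        exact (BoundedFormula.IsAtomic.equal _ _).isQF)
    have hψ3 : ∀ u w : Fin n → A, ψ.Realize (Fin.append u w) ↔
        (∀ i, u i = ev w (q i)) ∧ ∀ p ∈ S, ev w p = 0 := by
      intro u w
      have h1 : (Fin.append u w) ∘ Fin.natAdd n = w := by
        funext i
        exact Fin.append_right _ _ i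
      rw [hψ2]
      constructor
      · intro h
        constructor
        · intro i
          have := h _ (List.mem_append_left _ (List.mem_map.2 ⟨i, List.mem_finRange i, rfl⟩))
          rw [Formula.realize_equal, Term.realize_var, Term.realize_relabel, h1, hev,
            Fin.append_left] at this
          exact this
        · intro p hp
          have := h _ (List.mem_append_right _ (List.mem_map.2 ⟨p, Finset.mem_toList.2 hp, rfl⟩))
          rw [Formula.realize_equal, Term.realize_relabel, h1, hev, realize_zero] at this
          exact this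
      · rintro ⟨h2, h3⟩ φ hφ
        rcases List.mem_append.1 hφ with h | h
        · obtain ⟨i, -, rfl⟩ := List.mem_map.1 h
          rw [Formula.realize_equal, Term.realize_var, Term.realize_relabel, h1, hev,
            Fin.append_left]
          exact h2 i
        · obtain ⟨p, hp, rfl⟩ := List.mem_map.1 h
          rw [Formula.realize_equal, Term.realize_relabel, h1, hev, realize_zero]
          exact h3 p (Finset.mem_toList.1 hp)
    have hker : ∀ p ∈ S, ev a p = 0 := by
      intro p hp
      have : p ∈ RingHom.ker (ev a) := by
        rw [← hS]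
        exact Ideal.subset_span hp
      exact this
    -- the tuple `w`
    obtain ⟨w, hw⟩ : ∃ w : Fin n → A, ψ.Realize (Fin.append a w) := by
      by_contra hno
      push Not at hno
      have := hx n ψ.not hψ.not (fun w => by
        rw [Formula.realize_not]
        exact hno w) a
      rw [Formula.realize_not, hψ3] at this
      exact this ⟨fun i => (hq i).symm, hker⟩
    obtain ⟨hw1, hw2⟩ := (hψ3 a w).1 hw
    have hle : RingHom.ker (ev a) ≤ RingHom.ker (ev w) := by
      rw [← hS]
      refine Ideal.span_le.2 fun p hp => ?_
      exact hw2 p hp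
    -- the endomorphism
    let σ : A →+* A := (ev a).liftOfSurjective hsurj ⟨ev w, hle⟩
    have hσ : ∀ p, σ (ev a p) = ev w p := fun p =>
      RingHom.liftOfRightInverse_comp_apply _ _ _ ⟨ev w, hle⟩ p
    have hσx : ∀ i, σ (x i) = a i := by
      intro i
      rw [← hq i, hσ, ← hw1 i]
    have hσev : ∀ p, σ (ev x p) = ev a p := by
      intro p
      have : (σ.comp (ev x)) = ev a := by
        refine FreeCommRing.hom_ext fun i => ?_
        rw [RingHom.comp_apply, hof, hof, hσx]
      exact congrFun (congrArg DFunLike.coe this) p
    have hσs : Function.Surjective σ := by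
      intro y
      obtain ⟨p, hp⟩ := hsurj y
      exact ⟨ev x p, by rw [hσev, hp]⟩
    have hσi := injective_of_surjective σ hσs
    intro y
    obtain ⟨p, hp⟩ := hsurj (σ y)
    refine ⟨termOfFreeCommRing p, ?_⟩
    apply hσi
    rw [hev, hσev, hp]

end Pool.Agent.Results.MP_93e0ce_lc.CommRings
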